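import Pool.Agent.KTM3.Phase
import Pool.Agent.Ram1.Iter

/-!
# The colouring theorem for graphs with few triangles on each edge (MP_b47bfb_co)

From the phases of the colouring process to a colouring with `k` colours.
-/

set_option autoImplicit false

namespace Pool.Agent.KTM3

open Finset

/-- `3072 x ≤ exp x` for `x ≥ 12`. -/
lemma big_exp {x : ℝ} (hx : 12 ≤ x) : 3072 * x ≤ Real.exp x := by
  have h1 : (2.7182818283 : ℝ) < Real.exp 1 := Real.exp_one_gt_d9
  have h2 : Real.exp 12 = Real.exp 1 ^ 12 := by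
    rw [← Real.exp_nat_mul]; norm_num
  have h3 : (100000 : ℝ) ≤ Real.exp 12 := by
    rw [h2]
    calc (100000 : ℝ) ≤ 2.7182818283 ^ 12 := by norm_num
      _ ≤ Real.exp 1 ^ 12 := pow_le_pow_left₀ (by norm_num) h1.le 12
  have h4 : x - 12 + 1 ≤ Real.exp (x - 12) := Real.add_one_le_exp _
  have h5 : Real.exp x = Real.exp (x - 12) * Real.exp 12 := by
    rw [← Real.exp_add]; congr 1; ring
  rw [h5]
  have h6 : (x - 11) * 100000 ≤ Real.exp (x - 12) * Real.exp 12 := by
    apply mul_le_mul (by linarith) h3 (by norm_num) (Real.exp_pos _).le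
  linarith

theorem colour3 : ∃ k₀ : ℕ, ∀ k : ℕ, k₀ ≤ k → ∀ y : ℝ, Real.sqrt (Real.log k) ≤ y →
    y ≤ Real.log k → ∀ (n : ℕ) (P : ℕ → Finset ℕ),
    (∀ v, P v ⊆ range v) → (∀ v, v < n → ((P v).card : ℝ) ≤ 1 / 3000 * k * y) →
    (∀ v, ∀ u ∈ P v, ((P u ∩ P v).card : ℝ) ≤ k / Real.exp y) →
    (n : ℝ) ≤ Real.exp (k / Real.exp y) →
    ∃ f : ℕ → ℕ, (∀ v, v < n → f v < k) ∧ ∀ v, v < n → ∀ u ∈ P v, f u ≠ f v := by
  refine ⟨⌈Real.exp 1296⌉₊, ?_⟩
  intro k hk y hy1 hy2 n P hP hcard hc hn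
  have hkR : Real.exp 1296 ≤ (k : ℝ) := (Nat.le_ceil _).trans (by exact_mod_cast hk)
  have hk0 : (0 : ℝ) < k := lt_of_lt_of_le (Real.exp_pos _) hkR
  have hlog : (1296 : ℝ) ≤ Real.log k := (Real.le_log_iff_exp_le hk0).mpr hkR
  have hy36 : (36 : ℝ) ≤ y := by
    refine le_trans ?_ hy1
    apply Real.le_sqrt_of_sq_le
    linarith
  have hy0 : 0 < y := by linarith
  have hlk : 3072 * Real.log k ≤ k := by
    have := big_exp (x := Real.log k) (by linarith)
    rwa [Real.exp_log hk0] at this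
  have hkbig : (3072 * 1296 : ℝ) ≤ k := by linarith
  -- the first case: `P v` is small
  by_cases hD : 1 / 3000 * (k : ℝ) * y ≤ k / 4
  · obtain ⟨f, hf1, hf2⟩ := Ram1.colouring n 0 (k / 4 + 1) P hP (fun _ => ∅)
      (fun i hi => absurd hi (Nat.not_lt_zero i)) (by
        intro v hv
        have h1 : ((P v).card : ℝ) ≤ k / 4 := (hcard v hv).trans hD
        have h2 : (P v).card * 4 ≤ k := by
          have h3 : ((P v).card : ℝ) * 4 ≤ k := by linarith
          exact_mod_cast h3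
        exact lt_of_le_of_lt (Finset.card_filter_le _ _) (by omega))
    refine ⟨f, ?_, hf2⟩
    intro v hv
    have h1 := hf1 v hv
    have h2 : 3072 ≤ k := by
      have : (3072 : ℝ) ≤ k := by linarith
      exact_mod_cast this
    omega
  · push Not at hD
    set D : ℝ := 1 / 3000 * (k : ℝ) * y with hDdef
    have hD0 : 0 < D := by rw [hDdef]; positivity
    -- `J`
    have hex : ∃ j : ℕ, D / 2 ^ j ≤ k / 4 := by
      refine ⟨⌊y⌋₊, ?_⟩
      have h1 : y < 2 ^ ⌊y⌋₊ := by
        have h2 : y < ⌊y⌋₊ + 1 := Nat.lt_floor_add_one y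
        have h3 : ⌊y⌋₊ + 1 ≤ 2 ^ ⌊y⌋₊ := Nat.lt_two_pow_self
        have h4 : ((⌊y⌋₊ + 1 : ℕ) : ℝ) ≤ ((2 ^ ⌊y⌋₊ : ℕ) : ℝ) := by exact_mod_cast h3
        push_cast at h4
        linarith
      rw [div_le_iff₀ (by positivity), hDdef]
      have h5 : (k : ℝ) * y ≤ k * 2 ^ ⌊y⌋₊ := mul_le_mul_of_nonneg_left h1.le hk0.le
      have h6 : (0 : ℝ) ≤ k * 2 ^ ⌊y⌋₊ := by positivity
      nlinarith
    classical
    set J := Nat.find hex with hJ
    have hJ1 : D / 2 ^ J ≤ k / 4 := Nat.find_spec hex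
    have hJy : (J : ℝ) ≤ y := by
      have h1 : J ≤ ⌊y⌋₊ := by
        apply Nat.find_min' hex
        have h1 : y < 2 ^ ⌊y⌋₊ := by
          have h2 : y < ⌊y⌋₊ + 1 := Nat.lt_floor_add_one y
          have h3 : ⌊y⌋₊ + 1 ≤ 2 ^ ⌊y⌋₊ := Nat.lt_two_pow_self
          have h4 : ((⌊y⌋₊ + 1 : ℕ) : ℝ) ≤ ((2 ^ ⌊y⌋₊ : ℕ) : ℝ) := by exact_mod_cast h3
          push_cast at h4
          linarith
        rw [div_le_iff₀ (by positivity), hDdef]
        have h5 : (k : ℝ) * y ≤ k * 2 ^ ⌊y⌋₊ := mul_le_mul_of_nonneg_left h1.le hk0.le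
        have h6 : (0 : ℝ) ≤ k * 2 ^ ⌊y⌋₊ := by positivity
        nlinarith
      exact le_trans (by exact_mod_cast h1) (Nat.floor_le hy0.le)
    have hJ0 : J ≠ 0 := by
      intro h0
      rw [h0] at hJ1
      simp only [pow_zero, div_one] at hJ1
      linarith
    have hJ2 : (k : ℝ) / 8 < D / 2 ^ J := by
      obtain ⟨m, hm⟩ := Nat.exists_eq_succ_of_ne_zero hJ0
      have h1 : ¬ D / 2 ^ m ≤ k / 4 := Nat.find_min hex (by rw [← hJ, hm]; exact Nat.lt_succ_self m)
      push Not at h1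
      rw [hm, Nat.succ_eq_add_one, pow_succ]
      have h2 : D / (2 ^ m * 2) = D / 2 ^ m / 2 := by rw [div_div]
      rw [h2]
      linarith
    -- `L`
    have hL12 : (12 : ℝ) ≤ y / 3 := by linarith
    have hLe : 3072 * (y / 3) ≤ Real.exp (y / 3) := big_exp hL12
    have hE : Real.exp (2 * (y / 3)) * (k / Real.exp y) = k / Real.exp (y / 3) := by
      have h1 : Real.exp y = Real.exp (2 * (y / 3)) * Real.exp (y / 3) := by
        rw [← Real.exp_add]; congr 1; ring
      rw [h1]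
      have h2 := (Real.exp_pos (2 * (y / 3))).ne'
      have h3 := (Real.exp_pos (y / 3)).ne'
      field_simp
    have hexy : 0 < Real.exp (y / 3) := Real.exp_pos _
    have hsmall : y / 3 * (k / Real.exp (y / 3)) ≤ k / 3072 := by
      rw [← mul_div_assoc, div_le_div_iff₀ hexy (by norm_num)]
      have := mul_le_mul_of_nonneg_left hLe hk0.le
      linarith
    obtain ⟨T, hT, I, hI1, hI2⟩ := phases P hP n D (y / 3) (k / Real.exp y) (k / Real.exp y) hL12
      (by positivity) hcard hc hn J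
      (by
        rw [mul_assoc, hE]
        linarith)
      (by
        have h1 : Real.exp (y / 3) * Real.exp (2 * (y / 3)) ≤ k := by
          rw [← Real.exp_add]
          have h2 : y / 3 + 2 * (y / 3) = y := by ring
          rw [h2, ← Real.le_log_iff_exp_le hk0]
          exact hy2
        have h3 : 2 * (y / 3) + 1 ≤ Real.exp (2 * (y / 3)) := Real.add_one_le_exp _
        have h4 : y / 3 * Real.exp (y / 3) ≤ Real.exp (2 * (y / 3)) / 2 * Real.exp (y / 3) :=
          mul_le_mul_of_nonneg_right (by linarith) hexy.le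
        have h5 : Real.exp (2 * (y / 3)) / 2 * Real.exp (y / 3) =
          Real.exp (y / 3) * Real.exp (2 * (y / 3)) / 2 := by ring
        linarith)
    have hTk : (T : ℝ) ≤ k / 2 := by
      have h1 : 64 * Real.exp (2 * (y / 3)) * (k / Real.exp y) + 1 =
          64 * (k / Real.exp (y / 3)) + 1 := by rw [mul_assoc, hE]
      have h2 : 194 * D / (y / 3) = 582 / 3000 * k := by
        rw [hDdef]; field_simp; norm_num
      rw [h1, h2] at hT
      have h3 : (J : ℝ) * (64 * (k / Real.exp (y / 3)) + 1) ≤ y * (64 * (k / Real.exp (y / 3)) + 1) :=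
        mul_le_mul_of_nonneg_right hJy (by positivity)
      have h4 : y * (64 * (k / Real.exp (y / 3)) + 1) =
          192 * (y / 3 * (k / Real.exp (y / 3))) + y := by ring
      linarith
    obtain ⟨f, hf1, hf2⟩ := Ram1.colouring n T (k / 4 + 1) P hP I hI1 (by
        intro v hv
        have h1 := (hI2 v hv).trans hJ1
        have h2 : ((P v).filter (fun u => ∀ i, i < T → u ∉ I i)).card * 4 ≤ k := by
          have h3 : (((P v).filter (fun u => ∀ i, i < T → u ∉ I i)).card : ℝ) * 4 ≤ k := by linarith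
          exact_mod_cast h3
        omega)
    refine ⟨f, ?_, hf2⟩
    intro v hv
    have h1 := hf1 v hv
    have h2 : T * 2 ≤ k := by
      have : (T : ℝ) * 2 ≤ k := by linarith
      exact_mod_cast this
    have h3 : 3072 ≤ k := by
      have : (3072 : ℝ) ≤ k := by linarith
      exact_mod_cast this
    omega

end Pool.Agent.KTM3
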