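import Pool.Agent.KTM3.KT
import Pool.Agent.KTM3.Colour
import Pool.Agent.Ram1.Ord

/-!
# Complete minors in graphs with few triangles per edge and not too many vertices
-/

set_option autoImplicit false

namespace Pool.Agent.KTM3

open Finset
open scoped Classical
open Pool.Agent.BAB67

/-- From a degenerate order to a colouring. -/
theorem colourable_of_order {W : Type} [Fintype W] (F : SimpleGraph W)
    (e : W ≃ Fin (Fintype.card W)) (k d : ℕ) (b c : ℝ)
    (hcol : ∀ (n : ℕ) (P : ℕ → Finset ℕ), n = Fintype.card W → (∀ v, P v ⊆ range v) →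
      (∀ v, v < n → ((P v).card : ℝ) ≤ b) → (∀ v, ∀ u ∈ P v, ((P u ∩ P v).card : ℝ) ≤ c) →
      ∃ f : ℕ → ℕ, (∀ v, v < n → f v < k) ∧ ∀ v, v < n → ∀ u ∈ P v, f u ≠ f v)
    (hd : ∀ v, (univ.filter (fun u => F.Adj v u ∧ e u < e v)).card ≤ d) (hdb : (d : ℝ) ≤ b)
    (htri : ∀ u v, F.Adj u v → ({w | F.Adj u w ∧ F.Adj v w}.ncard : ℝ) ≤ c) :
    F.Colorable k := by
  set B : W → Finset W := fun v => univ.filter (fun u => F.Adj v u ∧ e u < e v) with hB
  set P : ℕ → Finset ℕ := fun v => if h : v < Fintype.card W then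
    (B (e.symm ⟨v, h⟩)).image (fun u => (e u : ℕ)) else ∅ with hP
  have hPe : ∀ w : W, P (e w) = (B w).image (fun u => (e u : ℕ)) := by
    intro w
    simp only [hP]
    rw [dif_pos (e w).2]
    simp
  have hinj : Function.Injective (fun u : W => (e u : ℕ)) := by
    intro a b hab
    exact e.injective (Fin.ext hab)
  have hPsub : ∀ v, P v ⊆ range v := by
    intro v
    by_cases h : v < Fintype.card W
    · intro x hx
      simp only [hP] at hx
      rw [dif_pos h, mem_image] at hx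
      obtain ⟨u, hu, rfl⟩ := hx
      simp only [hB, mem_filter] at hu
      have := hu.2.2
      rw [Equiv.apply_symm_apply] at this
      exact mem_range.mpr this
    · simp only [hP]
      rw [dif_neg h]
      exact empty_subset _
  have hsurj : ∀ v, v < Fintype.card W → ∃ w : W, (e w : ℕ) = v := by
    intro v hv
    exact ⟨e.symm ⟨v, hv⟩, by simp⟩
  have hPcard : ∀ v, v < Fintype.card W → ((P v).card : ℝ) ≤ b := by
    intro v hv
    obtain ⟨w, rfl⟩ := hsurj v hv
    rw [hPe, card_image_of_injective _ hinj]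
    refine le_trans ?_ hdb
    exact_mod_cast hd w
  have hPtri : ∀ v, ∀ u ∈ P v, ((P u ∩ P v).card : ℝ) ≤ c := by
    intro v u hu
    have hv : v < Fintype.card W := by
      by_contra hcon
      simp only [hP] at hu
      rw [dif_neg hcon] at hu
      exact absurd hu (notMem_empty u)
    obtain ⟨w, rfl⟩ := hsurj v hv
    rw [hPe, mem_image] at hu
    obtain ⟨z, hz, rfl⟩ := hu
    have hz' := (mem_filter.mp hz).2.1
    refine le_trans ?_ (htri z w hz'.symm)
    rw [hPe, hPe, ← image_inter _ _ hinj, card_image_of_injective _ hinj]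
    have h1 : ((B z ∩ B w : Finset W) : Set W) ⊆ {x | F.Adj z x ∧ F.Adj w x} := by
      intro x hx
      rw [mem_coe, mem_inter] at hx
      exact ⟨(mem_filter.mp hx.1).2.1, (mem_filter.mp hx.2).2.1⟩
    have h2 := Set.ncard_le_ncard h1 (Set.toFinite _)
    rw [Set.ncard_coe_finset] at h2
    exact_mod_cast h2
  obtain ⟨f, hf1, hf2⟩ := hcol (Fintype.card W) P rfl hPsub hPcard hPtri
  refine ⟨⟨fun w => ⟨f (e w), hf1 (e w) (e w).2⟩, ?_⟩⟩
  intro u w huw
  have key : ∀ a b : W, F.Adj a b → e a < e b → f (e a) ≠ f (e b) := by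
    intro a b hab hlt
    apply hf2 (e b) (e b).2
    rw [hPe]
    apply mem_image_of_mem
    exact mem_filter.mpr ⟨mem_univ _, hab.symm, hlt⟩
  rw [SimpleGraph.top_adj]
  intro hh
  have hh' : f (e u) = f (e w) := congrArg Fin.val hh
  rcases lt_trichotomy (e u) (e w) with h | h | h
  · exact key u w huw h hh'
  · exact huw.ne (e.injective h)
  · exact key w u huw.symm h hh'.symm

/-- Without `K_t` minor every vertex set has a vertex of small degree. -/
theorem low_degree {V : Type} [Fintype V] (G : SimpleGraph V) (t s : ℕ) (hs : 1 ≤ s) (ht : 1 ≤ t)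
    (hpar : 2 * t * (6 * (3 / 4 : ℝ) ^ s) ^ s < 1) (hG : ¬ HasModel t G) (U : Finset V)
    (hU : U.Nonempty) : ∃ u ∈ U, (U.filter (fun w => G.Adj u w)).card ≤ 64 * (t * s) := by
  by_contra hcon
  push Not at hcon
  apply hG
  have hne : Nonempty (U : Set V) := hU.to_subtype
  refine MinorOf.hasModel (induce_minor G (U : Set V)) ?_
  apply kt (32 * (t * s)) t s hs ht le_rfl hpar
  have h1 : (2 * (32 * (t * s))) * Nat.card (U : Set V) ≤
      2 * (G.induce (U : Set V)).edgeSet.ncard := by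
    apply degree_sum
    rintro ⟨u, hu⟩
    have h2 := hcon u hu
    have h3 : Subtype.val '' ((G.induce (U : Set V)).neighborSet ⟨u, hu⟩) =
        ((U.filter (fun w => G.Adj u w) : Finset V) : Set V) := by
      ext z
      rw [mem_coe, mem_filter]
      constructor
      · rintro ⟨a, ha, rfl⟩
        exact ⟨a.2, ha⟩
      · rintro ⟨hz1, hz2⟩
        exact ⟨⟨z, hz1⟩, hz2, rfl⟩
    rw [← Set.ncard_image_of_injective _ Subtype.val_injective, h3, Set.ncard_coe_finset]
    omega
  have h4 : (2 * (32 * (t * s))) * Nat.card (U : Set V) =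
      2 * (32 * (t * s) * Nat.card (U : Set V)) := by ring
  omega

/-- The choice of `s`. -/
lemma par {t s : ℕ} {x : ℝ} (hx : 4 ≤ x) (hs : 4 * x ≤ s) (ht : (2 * t : ℝ) < Real.exp (2 * x ^ 2)) :
    2 * t * (6 * (3 / 4 : ℝ) ^ s) ^ s < 1 := by
  have hs16 : (16 : ℝ) ≤ s := by linarith
  have hs16' : 16 ≤ s := by exact_mod_cast hs16
  obtain ⟨r, rfl⟩ := Nat.exists_eq_add_of_le (show 7 ≤ s by omega)
  have h1 : 6 * (3 / 4 : ℝ) ^ (7 + r) ≤ Real.exp (-(r / 4)) := by
    rw [pow_add]
    have h2 : (3 / 4 : ℝ) ≤ Real.exp (-(1 / 4)) := by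
      have := Real.add_one_le_exp (-(1 / 4) : ℝ)
      linarith
    have h3 : (3 / 4 : ℝ) ^ r ≤ Real.exp (-(r / 4)) := by
      refine (pow_le_pow_left₀ (by norm_num) h2 r).trans (le_of_eq ?_)
      rw [← Real.exp_nat_mul]
      congr 1
      ring
    have h4 : 6 * (3 / 4 : ℝ) ^ 7 ≤ 1 := by norm_num
    have h5 : (0 : ℝ) < (3 / 4 : ℝ) ^ r := by positivity
    nlinarith
  have h2 : (6 * (3 / 4 : ℝ) ^ (7 + r)) ^ (7 + r) ≤ Real.exp (-(2 * x ^ 2)) := by
    refine (pow_le_pow_left₀ (by positivity) h1 (7 + r)).trans ?_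
    rw [← Real.exp_nat_mul]
    apply Real.exp_le_exp.mpr
    push_cast at hs hs16 ⊢
    have h6 : (r : ℝ) ≥ (7 + r) / 2 := by linarith
    have h7 : (7 + (r : ℝ)) * r ≥ (7 + r) * ((7 + r) / 2) :=
      mul_le_mul_of_nonneg_left h6 (by linarith)
    have h8 : (4 * x) ^ 2 ≤ (7 + (r : ℝ)) ^ 2 := pow_le_pow_left₀ (by linarith) hs 2
    nlinarith
  have h3 : (0 : ℝ) ≤ 2 * t := by positivity
  calc 2 * t * (6 * (3 / 4 : ℝ) ^ (7 + r)) ^ (7 + r) ≤ 2 * t * Real.exp (-(2 * x ^ 2)) :=
        mul_le_mul_of_nonneg_left h2 h3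
    _ < Real.exp (2 * x ^ 2) * Real.exp (-(2 * x ^ 2)) :=
        mul_lt_mul_of_pos_right ht (Real.exp_pos _)
    _ = 1 := by rw [← Real.exp_add]; simp

theorem main : ∃ k₀ : ℕ, ∀ (V : Type) [Fintype V] (G : SimpleGraph V) (k : ℕ) (y : ℝ),
    k₀ ≤ k → Real.sqrt (Real.log k) ≤ y → ¬ G.Colorable k →
    (Fintype.card V : ℝ) ≤ Real.exp (k / Real.exp y) →
    (∀ u v, G.Adj u v → ({w | G.Adj u w ∧ G.Adj v w}.ncard : ℝ) ≤ k / Real.exp y) →
    HasModel ⌊(k * y / (960000 * Real.sqrt (Real.log k)) : ℝ)⌋₊ G := by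
  obtain ⟨k₁, hcol⟩ := colour3
  refine ⟨max k₁ ⌈Real.exp 16⌉₊, ?_⟩
  intro V _ G k y hk hy hG hn htri
  have hk1 : k₁ ≤ k := (le_max_left _ _).trans hk
  have hk2 : Real.exp 16 ≤ k := (Nat.le_ceil _).trans (by exact_mod_cast (le_max_right _ _).trans hk)
  have hk0 : (0 : ℝ) < k := lt_of_lt_of_le (Real.exp_pos _) hk2
  have hk3 : (3 : ℝ) ≤ k := by
    have := Real.add_one_le_exp (16 : ℝ)
    linarith
  have hlog : 16 ≤ Real.log k := by
    rw [Real.le_log_iff_exp_le hk0]
    exact hk2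
  set x : ℝ := Real.sqrt (Real.log k) with hx
  have hx2 : x ^ 2 = Real.log k := Real.sq_sqrt (by linarith)
  have hx4 : 4 ≤ x := by
    rw [hx]
    apply Real.le_sqrt_of_sq_le
    linarith
  have hx0 : 0 < x := by linarith
  -- y ≤ log k
  have hVk : k < Fintype.card V := by
    by_contra hcon
    push Not at hcon
    exact hG (G.colorable_of_fintype.mono hcon)
  have hyk : y ≤ Real.log k := by
    by_contra hcon
    push Not at hcon
    have h1 : (k : ℝ) < Real.exp y := by
      rwa [Real.log_lt_iff_lt_exp hk0] at hcon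
    have h2 : (k : ℝ) / Real.exp y < 1 := by
      rw [div_lt_one (Real.exp_pos _)]
      exact h1
    have h3 : Real.exp (k / Real.exp y) < Real.exp 1 := Real.exp_lt_exp.mpr h2
    have h4 : Real.exp 1 < 3 := by
      have := Real.exp_one_lt_d9
      linarith
    have h5 : (k : ℝ) < Fintype.card V := by exact_mod_cast hVk
    linarith
  have hy0 : 0 < y := by linarith
  set t : ℕ := ⌊(k * y / (960000 * x) : ℝ)⌋₊ with ht
  have htle : (t : ℝ) ≤ k * y / (960000 * x) := Nat.floor_le (by positivity)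
  by_cases ht0 : t = 0
  · rw [ht0]
    exact ⟨fun i => i.elim0, fun i => i.elim0, fun i => i.elim0, fun i => i.elim0⟩
  by_contra hno
  apply hG
  set s : ℕ := ⌈4 * x⌉₊ with hs
  have hs1 : 4 * x ≤ s := Nat.le_ceil _
  have hs2 : (s : ℝ) ≤ 5 * x := by
    have : (s : ℝ) < 4 * x + 1 := Nat.ceil_lt_add_one (by linarith)
    linarith
  have hs3 : 1 ≤ s := by
    have : (1 : ℝ) ≤ s := by linarith
    exact_mod_cast this
  have hpar : 2 * t * (6 * (3 / 4 : ℝ) ^ s) ^ s < 1 := by
    apply par hx4 hs1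
    have h1 : Real.exp (2 * x ^ 2) = k ^ 2 := by
      rw [hx2, two_mul, Real.exp_add, Real.exp_log hk0]
      ring
    rw [h1]
    have h2 : k * y / (960000 * x) ≤ k * x / 960000 := by
      rw [div_le_div_iff₀ (by positivity) (by norm_num)]
      have h3 : k * y ≤ k * x ^ 2 := mul_le_mul_of_nonneg_left (by rw [hx2]; exact hyk) hk0.le
      nlinarith
    have h4 : x ≤ k := by
      have h5 : Real.log k ≤ k := (Real.log_le_sub_one_of_pos hk0).trans (by linarith)
      nlinarith
    have h6 : k * x ≤ k * k := mul_le_mul_of_nonneg_left h4 hk0.le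
    have h7 : (0 : ℝ) < k * k := by positivity
    nlinarith
  obtain ⟨e, he⟩ := Pool.Agent.Ram1.order G (64 * (t * s))
    (low_degree G t s hs3 (by omega) hpar hno)
  apply colourable_of_order G e k (64 * (t * s)) (1 / 3000 * k * y) (k / Real.exp y) _
    (fun v => by convert he v) _ htri
  · intro n P hn' h1 h2 h3
    exact hcol k hk1 y hy hyk n P h1 h2 h3 (by rw [hn']; exact hn)
  · push_cast
    have h1 : (t : ℝ) * s ≤ k * y / (960000 * x) * (5 * x) :=
      mul_le_mul htle hs2 (Nat.cast_nonneg _) (by positivity)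
    have h2 : k * y / (960000 * x) * (5 * x) = k * y / 192000 := by
      field_simp
      norm_num
    rw [h2] at h1
    have h3 : (0 : ℝ) < k * y := by positivity
    linarith

end Pool.Agent.KTM3
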