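import Pool.Agent.BAB67.Minor

/-!
# Connecting small sets by short paths
-/

set_option autoImplicit false

namespace Pool.Agent.KTM3

open Finset
open scoped Classical
open Pool.Agent.BAB67

/-- Any two vertices of `X` are joined by a path with at most two inner vertices, all in `X`,
outside any given set of at most `m` vertices. -/
def Linked {W : Type} (H : SimpleGraph W) (X : Finset W) (m : ℕ) : Prop :=
  ∀ u ∈ X, ∀ v ∈ X, u ≠ v → ∀ F : Finset W, F.card ≤ m → u ∉ F → v ∉ F →
    H.Adj u v ∨ (∃ p ∈ X, p ∉ F ∧ H.Adj u p ∧ H.Adj p v) ∨
    (∃ p ∈ X, ∃ q ∈ X, p ∉ F ∧ q ∉ F ∧ H.Adj u p ∧ H.Adj p q ∧ H.Adj q v)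

/-- One set can be made connected. -/
lemma connect_one {W : Type} (H : SimpleGraph W) (X : Finset W) (m : ℕ) (hL : Linked H X m)
    (F : Finset W) (hF : F.card ≤ m) (A : Finset W) (hA : A.Nonempty) :
    A ⊆ X → Disjoint A F → ∃ B : Finset W, A ⊆ B ∧ B ⊆ X ∧ Disjoint B F ∧ B.card ≤ 3 * A.card ∧
      (H.induce (B : Set W)).Connected := by
  induction hA using Finset.Nonempty.cons_induction with
  | singleton a =>
    intro hX hD
    refine ⟨{a}, subset_refl _, hX, hD, by simp, ?_⟩
    rw [coe_singleton]
    exact conn_singleton H a
  | cons a A ha hA ih =>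
    intro hX hD
    rw [cons_eq_insert] at hX hD ⊢
    rw [insert_subset_iff] at hX
    rw [disjoint_insert_left] at hD
    obtain ⟨B, hAB, hBX, hBF, hBc, hBconn⟩ := ih hX.2 hD.2
    rw [card_insert_of_notMem ha]
    by_cases haB : a ∈ B
    · exact ⟨B, insert_subset haB hAB, hBX, hBF, by omega, hBconn⟩
    · obtain ⟨b, hb⟩ := hA
      have hbB := hAB hb
      have hab : a ≠ b := by
        rintro rfl
        exact haB hbB
      have hbF : b ∉ F := fun h => (disjoint_left.mp hBF) hbB h
      have hsing : (H.induce ({a} : Set W)).Connected := conn_singleton H a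
      rcases hL a hX.1 b (hX.2 hb) hab F hF hD.1 hbF with h | ⟨p, hp, hpF, h1, h2⟩ |
          ⟨p, hp, q, hq, hpF, hqF, h1, h2, h3⟩
      · refine ⟨insert a B, insert_subset_insert _ hAB, insert_subset hX.1 hBX,
          disjoint_insert_left.mpr ⟨hD.1, hBF⟩, ?_, ?_⟩
        · have := card_insert_le a B
          omega
        · rw [coe_insert, Set.insert_eq]
          exact conn_union_adj hsing hBconn rfl (mem_coe.mpr hbB) h
      · refine ⟨insert a (insert p B), insert_subset_insert _ (hAB.trans (subset_insert _ _)),
          insert_subset hX.1 (insert_subset hp hBX), disjoint_insert_left.mpr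
            ⟨hD.1, disjoint_insert_left.mpr ⟨hpF, hBF⟩⟩, ?_, ?_⟩
        · have e1 := card_insert_le a (insert p B)
          have e2 := card_insert_le p B
          omega
        · have c1 : (H.induce ((insert p B : Finset W) : Set W)).Connected := by
            rw [coe_insert, Set.insert_eq]
            exact conn_union_adj (conn_singleton H p) hBconn rfl (mem_coe.mpr hbB) h2
          rw [coe_insert a, Set.insert_eq]
          exact conn_union_adj hsing c1 rfl (mem_coe.mpr (mem_insert_self p B)) h1
      · refine ⟨insert a (insert p (insert q B)), insert_subset_insert _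
          (hAB.trans ((subset_insert _ _).trans (subset_insert _ _))),
          insert_subset hX.1 (insert_subset hp (insert_subset hq hBX)), disjoint_insert_left.mpr
            ⟨hD.1, disjoint_insert_left.mpr ⟨hpF, disjoint_insert_left.mpr ⟨hqF, hBF⟩⟩⟩, ?_, ?_⟩
        · have e1 := card_insert_le a (insert p (insert q B))
          have e2 := card_insert_le p (insert q B)
          have e3 := card_insert_le q B
          omega
        · have c0 : (H.induce ((insert q B : Finset W) : Set W)).Connected := by
            rw [coe_insert, Set.insert_eq]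
            exact conn_union_adj (conn_singleton H q) hBconn rfl (mem_coe.mpr hbB) h3
          have c1 : (H.induce ((insert p (insert q B) : Finset W) : Set W)).Connected := by
            rw [coe_insert p, Set.insert_eq]
            exact conn_union_adj (conn_singleton H p) c0 rfl (mem_coe.mpr (mem_insert_self q B)) h2
          rw [coe_insert a, Set.insert_eq]
          exact conn_union_adj hsing c1 rfl (mem_coe.mpr (mem_insert_self p _)) h1

/-- All the sets can be made connected. -/
theorem connect_all {W : Type} (H : SimpleGraph W) (X : Finset W) (m t s : ℕ)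
    (hL : Linked H X m) (hm : 4 * (t * s) ≤ m) (A : ℕ → Finset W)
    (hA1 : ∀ i, i < t → A i ⊆ X ∧ (A i).Nonempty ∧ (A i).card ≤ s)
    (hA2 : ∀ i, i < t → ∀ i', i' < t → i ≠ i' → Disjoint (A i) (A i')) :
    ∀ j, j ≤ t → ∃ B : ℕ → Finset W, (∀ i, i < j → A i ⊆ B i ∧ B i ⊆ X ∧ (B i).card ≤ 3 * s ∧
        (H.induce (B i : Set W)).Connected ∧ ∀ i', i' < t → i ≠ i' → Disjoint (B i) (A i')) ∧
      ∀ i, i < j → ∀ i', i' < j → i ≠ i' → Disjoint (B i) (B i') := by
  intro j
  induction j with
  | zero =>
    intro _
    exact ⟨fun _ => ∅, fun i hi => absurd hi (Nat.not_lt_zero i),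
      fun i hi => absurd hi (Nat.not_lt_zero i)⟩
  | succ j ih =>
    intro hj
    obtain ⟨B, hB1, hB2⟩ := ih (by omega)
    set F : Finset W := ((range t).erase j).biUnion A ∪ (range j).biUnion B with hF
    have hFc : F.card ≤ m := by
      have h1 : (((range t).erase j).biUnion A).card ≤ t * s := by
        refine card_biUnion_le.trans ?_
        have e1 : ∑ i ∈ (range t).erase j, (A i).card ≤ ∑ _i ∈ (range t).erase j, s :=
          sum_le_sum (fun i hi => (hA1 i (mem_range.mp (mem_of_mem_erase hi))).2.2)
        refine e1.trans ?_
        rw [sum_const, smul_eq_mul]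
        apply Nat.mul_le_mul_right
        exact (card_le_card (erase_subset _ _)).trans (card_range t).le
      have h2 : ((range j).biUnion B).card ≤ t * (3 * s) := by
        refine card_biUnion_le.trans ?_
        have e1 : ∑ i ∈ range j, (B i).card ≤ ∑ _i ∈ range j, 3 * s :=
          sum_le_sum (fun i hi => (hB1 i (mem_range.mp hi)).2.2.1)
        refine e1.trans ?_
        rw [sum_const, smul_eq_mul, card_range]
        exact Nat.mul_le_mul_right _ (by omega)
      have h3 : t * (3 * s) = 3 * (t * s) := by ring
      have := card_union_le (((range t).erase j).biUnion A) ((range j).biUnion B)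
      rw [← hF] at this
      omega
    have hAF : Disjoint (A j) F := by
      rw [hF, disjoint_union_right]
      constructor
      · rw [disjoint_biUnion_right]
        intro i hi
        rw [mem_erase, mem_range] at hi
        exact hA2 j (by omega) i hi.2 hi.1.symm
      · rw [disjoint_biUnion_right]
        intro i hi
        rw [mem_range] at hi
        exact ((hB1 i hi).2.2.2.2 j (by omega) (by omega)).symm
    obtain ⟨C, hAC, hCX, hCF, hCc, hCconn⟩ := connect_one H X m hL F hFc (A j)
      (hA1 j (by omega)).2.1 (hA1 j (by omega)).1 hAF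
    rw [hF, disjoint_union_right, disjoint_biUnion_right, disjoint_biUnion_right] at hCF
    have hCB : ∀ i, i < j → Disjoint C (B i) := fun i hi => hCF.2 i (mem_range.mpr hi)
    refine ⟨Function.update B j C, ?_, ?_⟩
    · intro i hi
      by_cases hij : i = j
      · rw [hij, Function.update_self]
        refine ⟨hAC, hCX, ?_, hCconn, ?_⟩
        · have := (hA1 j (by omega)).2.2
          omega
        · intro i' hi' hne
          exact hCF.1 i' (mem_erase.mpr ⟨hne.symm, mem_range.mpr hi'⟩)
      · rw [Function.update_of_ne hij]
        exact hB1 i (by omega)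
    · intro i hi i' hi' hne
      by_cases hij : i = j
      · have hij' : i' ≠ j := fun h => hne (hij.trans h.symm)
        rw [hij, Function.update_self, Function.update_of_ne hij']
        exact hCB i' (by omega)
      · rw [Function.update_of_ne hij]
        by_cases hij' : i' = j
        · rw [hij', Function.update_self]
          exact (hCB i (by omega)).symm
        · rw [Function.update_of_ne hij']
          exact hB2 i (by omega) i' (by omega) hne

end Pool.Agent.KTM3
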