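import Mathlib

/-!
# Small sets with few non-neighbours, any two of them joined by an edge
-/

set_option autoImplicit false

namespace Pool.Agent.KTM3

open Finset
open scoped Classical

/-- The vertices of `X` without neighbour in `A`. -/
noncomputable def nd {W : Type} (H : SimpleGraph W) (X A : Finset W) : Finset W :=
  X.filter (fun v => ∀ a ∈ A, ¬ H.Adj v a)

lemma nd_image {W : Type} (H : SimpleGraph W) (X : Finset W) {s : ℕ} (f : Fin s → W) :
    nd H X (univ.image f) = X.filter (fun v => ∀ i, ¬ H.Adj v (f i)) := by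
  unfold nd
  apply filter_congr
  intro v _
  simp

/-- One more set. -/
lemma pick {W : Type} (H : SimpleGraph W) (X Y : Finset W) (s j t : ℕ) (A : ℕ → Finset W)
    (hYX : Y ⊆ X) (hY : X.card ≤ 2 * Y.card) (hYpos : 0 < Y.card)
    (hdeg : ∀ v ∈ X, X.card ≤ 4 * (Y.filter (fun w => H.Adj v w)).card)
    (hA : ∀ i, i < j → ((nd H X (A i)).card : ℝ) ≤ 3 * X.card * (3 / 4 : ℝ) ^ s) (hjt : j ≤ t)
    (hpar : 2 * t * (6 * (3 / 4 : ℝ) ^ s) ^ s < 1) :
    ∃ f : Fin s → W, (∀ i, f i ∈ Y) ∧
      ((nd H X (univ.image f)).card : ℝ) ≤ 3 * X.card * (3 / 4 : ℝ) ^ s ∧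
      ∀ i, i < j → ∃ l, ∃ a ∈ A i, H.Adj (f l) a := by
  set M : ℝ := 3 * X.card * (3 / 4 : ℝ) ^ s with hM
  have hXpos : (0 : ℝ) < X.card := by
    exact_mod_cast lt_of_lt_of_le hYpos (card_le_card hYX)
  have hYpos' : (0 : ℝ) < Y.card := by exact_mod_cast hYpos
  have hMpos : 0 < M := by positivity
  set T : Finset (Fin s → W) := Fintype.piFinset (fun _ => Y) with hT
  have hTc : (T.card : ℝ) = (Y.card : ℝ) ^ s := by
    rw [hT, Fintype.card_piFinset]
    simp
  set B0 : Finset (Fin s → W) := T.filter (fun f => M < ((nd H X (univ.image f)).card : ℝ)) with hB0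
  set B1 : Finset (Fin s → W) := (range j).biUnion
    (fun i => Fintype.piFinset (fun _ : Fin s => nd H X (A i))) with hB1
  -- the first kind of bad functions
  have h0 : (B0.card : ℝ) ≤ (Y.card : ℝ) ^ s / 3 := by
    have e1 : (B0.card : ℝ) * M ≤ ∑ f ∈ T, ((nd H X (univ.image f)).card : ℝ) := by
      calc (B0.card : ℝ) * M = ∑ _f ∈ B0, M := by rw [sum_const, nsmul_eq_mul]
        _ ≤ ∑ f ∈ B0, ((nd H X (univ.image f)).card : ℝ) :=
            sum_le_sum (fun f hf => (mem_filter.mp hf).2.le)
        _ ≤ _ := sum_le_sum_of_subset_of_nonneg (filter_subset _ _)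
            (fun _ _ _ => Nat.cast_nonneg _)
    have e2 : ∑ f ∈ T, ((nd H X (univ.image f)).card : ℝ) =
        ∑ v ∈ X, ((T.filter (fun f => ∀ i, ¬ H.Adj v (f i))).card : ℝ) := by
      have e3 : ∀ f ∈ T, ((nd H X (univ.image f)).card : ℝ) =
          ∑ v ∈ X, if (∀ i, ¬ H.Adj v (f i)) then (1 : ℝ) else 0 := by
        intro f _
        rw [nd_image, card_filter]
        push_cast
        rfl
      rw [sum_congr rfl e3, sum_comm]
      apply sum_congr rfl
      intro v _
      rw [card_filter]
      push_cast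
      rfl
    have e4 : ∀ v ∈ X, ((T.filter (fun f => ∀ i, ¬ H.Adj v (f i))).card : ℝ) ≤
        (3 / 4 * (Y.card : ℝ)) ^ s := by
      intro v hv
      have e5 : T.filter (fun f => ∀ i, ¬ H.Adj v (f i)) ⊆
          Fintype.piFinset (fun _ : Fin s => Y.filter (fun w => ¬ H.Adj v w)) := by
        intro f hf
        rw [mem_filter, hT, Fintype.mem_piFinset] at hf
        rw [Fintype.mem_piFinset]
        intro i
        exact mem_filter.mpr ⟨hf.1 i, hf.2 i⟩
      have e6 : ((T.filter (fun f => ∀ i, ¬ H.Adj v (f i))).card : ℝ) ≤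
          ((Y.filter (fun w => ¬ H.Adj v w)).card : ℝ) ^ s := by
        have := card_le_card e5
        rw [Fintype.card_piFinset] at this
        simp only [prod_const, card_univ, Fintype.card_fin] at this
        exact_mod_cast this
      refine e6.trans (pow_le_pow_left₀ (Nat.cast_nonneg _) ?_ s)
      have e7 : ((Y.filter (fun w => H.Adj v w)).card : ℝ) +
          (Y.filter (fun w => ¬ H.Adj v w)).card = Y.card := by
        exact_mod_cast card_filter_add_card_filter_not (s := Y) (fun w => H.Adj v w)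
      have e8 : (X.card : ℝ) ≤ 4 * (Y.filter (fun w => H.Adj v w)).card := by
        exact_mod_cast hdeg v hv
      have e9 : (Y.card : ℝ) ≤ X.card := by exact_mod_cast card_le_card hYX
      linarith
    have e10 : (B0.card : ℝ) * M ≤ X.card * (3 / 4 * (Y.card : ℝ)) ^ s := by
      refine e1.trans ?_
      rw [e2]
      refine (sum_le_sum e4).trans (le_of_eq ?_)
      rw [sum_const, nsmul_eq_mul]
    have e11 : (X.card : ℝ) * (3 / 4 * (Y.card : ℝ)) ^ s = (Y.card : ℝ) ^ s / 3 * M := by
      rw [hM, mul_pow]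
      ring
    rw [e11] at e10
    exact le_of_mul_le_mul_right e10 hMpos
  -- the second kind of bad functions
  have h1 : (B1.card : ℝ) ≤ (Y.card : ℝ) ^ s / 2 := by
    have e1 : (B1.card : ℝ) ≤ ∑ i ∈ range j, ((nd H X (A i)).card : ℝ) ^ s := by
      have : B1.card ≤ ∑ i ∈ range j, (Fintype.piFinset (fun _ : Fin s => nd H X (A i))).card :=
        card_biUnion_le
      have e2 : ∀ i ∈ range j, (Fintype.piFinset (fun _ : Fin s => nd H X (A i))).card =
          (nd H X (A i)).card ^ s := by
        intro i _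
        rw [Fintype.card_piFinset]
        simp
      rw [sum_congr rfl e2] at this
      exact_mod_cast this
    have e3 : ∑ i ∈ range j, ((nd H X (A i)).card : ℝ) ^ s ≤ t * M ^ s := by
      calc ∑ i ∈ range j, ((nd H X (A i)).card : ℝ) ^ s ≤ ∑ _i ∈ range j, M ^ s :=
            sum_le_sum (fun i hi => pow_le_pow_left₀ (Nat.cast_nonneg _)
              (hA i (mem_range.mp hi)) s)
        _ = j * M ^ s := by rw [sum_const, card_range, nsmul_eq_mul]
        _ ≤ t * M ^ s := by
            apply mul_le_mul_of_nonneg_right _ (by positivity)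
            exact_mod_cast hjt
    have e4 : M ≤ 6 * (3 / 4 : ℝ) ^ s * Y.card := by
      rw [hM]
      have : (X.card : ℝ) ≤ 2 * Y.card := by exact_mod_cast hY
      have h34 : (0 : ℝ) < (3 / 4 : ℝ) ^ s := by positivity
      nlinarith
    have e5 : M ^ s ≤ (6 * (3 / 4 : ℝ) ^ s) ^ s * (Y.card : ℝ) ^ s := by
      rw [← mul_pow]
      exact pow_le_pow_left₀ hMpos.le e4 s
    have e6 : (t : ℝ) * M ^ s ≤ t * ((6 * (3 / 4 : ℝ) ^ s) ^ s * (Y.card : ℝ) ^ s) :=
      mul_le_mul_of_nonneg_left e5 (Nat.cast_nonneg _)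
    have e7 : (t : ℝ) * ((6 * (3 / 4 : ℝ) ^ s) ^ s * (Y.card : ℝ) ^ s) ≤
        (Y.card : ℝ) ^ s / 2 := by
      have hYs : (0 : ℝ) < (Y.card : ℝ) ^ s := by positivity
      nlinarith
    linarith
  have h2 : (B0 ∪ B1).card < T.card := by
    have e1 : ((B0 ∪ B1).card : ℝ) ≤ B0.card + B1.card := by exact_mod_cast card_union_le _ _
    have hYs : (0 : ℝ) < (Y.card : ℝ) ^ s := by positivity
    have : ((B0 ∪ B1).card : ℝ) < T.card := by
      rw [hTc]
      linarith
    exact_mod_cast this
  obtain ⟨f, hfT, hf⟩ := exists_mem_notMem_of_card_lt_card h2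
  rw [mem_union, not_or] at hf
  have hfY : ∀ i, f i ∈ Y := by
    rw [hT, Fintype.mem_piFinset] at hfT
    exact hfT
  refine ⟨f, hfY, ?_, ?_⟩
  · by_contra hcon
    push Not at hcon
    exact hf.1 (mem_filter.mpr ⟨hfT, hcon⟩)
  · intro i hi
    by_contra hcon
    push Not at hcon
    apply hf.2
    rw [hB1, mem_biUnion]
    refine ⟨i, mem_range.mpr hi, ?_⟩
    rw [Fintype.mem_piFinset]
    intro l
    exact mem_filter.mpr ⟨hYX (hfY l), fun a ha => hcon l a ha⟩

/-- `t` disjoint sets of at most `s` vertices, any two of them joined by an edge. -/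
theorem exists_sets {W : Type} (H : SimpleGraph W) (X : Finset W) (t s : ℕ) (hs : 1 ≤ s)
    (hX : 0 < X.card) (hts : 12 * (t * s) ≤ X.card)
    (hdeg : ∀ v ∈ X, X.card ≤ 3 * (X.filter (fun w => H.Adj v w)).card)
    (hpar : 2 * t * (6 * (3 / 4 : ℝ) ^ s) ^ s < 1) :
    ∀ j, j ≤ t → ∃ A : ℕ → Finset W, (∀ i, i < j → A i ⊆ X ∧ (A i).Nonempty ∧ (A i).card ≤ s ∧
        ((nd H X (A i)).card : ℝ) ≤ 3 * X.card * (3 / 4 : ℝ) ^ s) ∧
      ∀ i, i < j → ∀ i', i' < j → i ≠ i' → Disjoint (A i) (A i') ∧
        ∃ a ∈ A i, ∃ b ∈ A i', H.Adj a b := by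
  intro j
  induction j with
  | zero =>
    intro _
    exact ⟨fun _ => ∅, fun i hi => absurd hi (Nat.not_lt_zero i),
      fun i hi => absurd hi (Nat.not_lt_zero i)⟩
  | succ j ih =>
    intro hj
    obtain ⟨A, hA1, hA2⟩ := ih (by omega)
    set U : Finset W := (range j).biUnion A with hU
    have hUX : U ⊆ X := by
      rw [hU, biUnion_subset]
      intro i hi
      exact (hA1 i (mem_range.mp hi)).1
    have hUc : 12 * U.card ≤ X.card := by
      have h1 : U.card ≤ ∑ i ∈ range j, (A i).card := card_biUnion_le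
      have h2 : ∑ i ∈ range j, (A i).card ≤ ∑ _i ∈ range j, s :=
        sum_le_sum (fun i hi => (hA1 i (mem_range.mp hi)).2.2.1)
      rw [sum_const, card_range, smul_eq_mul] at h2
      have h3 : j * s ≤ t * s := Nat.mul_le_mul_right s (by omega)
      omega
    set Y : Finset W := X \ U with hYdef
    have hYc : Y.card + U.card = X.card := card_sdiff_add_card_eq_card hUX
    have hdegY : ∀ v ∈ X, X.card ≤ 4 * (Y.filter (fun w => H.Adj v w)).card := by
      intro v hv
      have h1 := hdeg v hv
      have h2 : (X.filter (fun w => H.Adj v w)).card ≤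
          (Y.filter (fun w => H.Adj v w)).card + U.card := by
        have : X.filter (fun w => H.Adj v w) ⊆ Y.filter (fun w => H.Adj v w) ∪ U := by
          intro w hw
          rw [mem_filter] at hw
          rw [mem_union]
          by_cases hwU : w ∈ U
          · exact Or.inr hwU
          · exact Or.inl (mem_filter.mpr ⟨mem_sdiff.mpr ⟨hw.1, hwU⟩, hw.2⟩)
        exact (card_le_card this).trans (card_union_le _ _)
      omega
    obtain ⟨f, hf1, hf2, hf3⟩ := pick H X Y s j t A sdiff_subset (by omega) (by omega) hdegY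
      (fun i hi => (hA1 i hi).2.2.2) (by omega) hpar
    have hfU : ∀ i, i < j → Disjoint (univ.image f) (A i) := by
      intro i hi
      rw [disjoint_left]
      intro w hw hwA
      rw [mem_image] at hw
      obtain ⟨l, -, rfl⟩ := hw
      have := hf1 l
      rw [hYdef, mem_sdiff] at this
      exact this.2 (mem_biUnion.mpr ⟨i, mem_range.mpr hi, hwA⟩)
    have hadj : ∀ i, i < j → ∃ a ∈ univ.image f, ∃ b ∈ A i, H.Adj a b := by
      intro i hi
      obtain ⟨l, a, ha, hla⟩ := hf3 i hi
      exact ⟨f l, mem_image_of_mem f (mem_univ l), a, ha, hla⟩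
    refine ⟨Function.update A j (univ.image f), ?_, ?_⟩
    · intro i hi
      by_cases hij : i = j
      · rw [hij, Function.update_self]
        refine ⟨?_, ?_, ?_, hf2⟩
        · intro w hw
          rw [mem_image] at hw
          obtain ⟨l, -, rfl⟩ := hw
          exact sdiff_subset (hf1 l)
        · exact ⟨f ⟨0, by omega⟩, mem_image_of_mem f (mem_univ _)⟩
        · refine card_image_le.trans ?_
          rw [card_univ, Fintype.card_fin]
      · rw [Function.update_of_ne hij]
        exact hA1 i (by omega)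
    · intro i hi i' hi' hne
      by_cases hij : i = j
      · have hij' : i' ≠ j := fun h => hne (hij.trans h.symm)
        rw [hij, Function.update_self, Function.update_of_ne hij']
        exact ⟨hfU i' (by omega), hadj i' (by omega)⟩
      · rw [Function.update_of_ne hij]
        by_cases hij' : i' = j
        · rw [hij', Function.update_self]
          obtain ⟨a, ha, b, hb, hab⟩ := hadj i (by omega)
          exact ⟨(hfU i (by omega)).symm, b, hb, a, ha, hab.symm⟩
        · rw [Function.update_of_ne hij']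
          exact hA2 i (by omega) i' (by omega) hne

end Pool.Agent.KTM3
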