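import Pool.Agent.KTM3.Mader3
import Pool.Agent.KTM3.Sets
import Pool.Agent.KTM3.Link

/-!
# Complete minors in graphs of large average degree (Kostochka, Thomason)

The short argument of Alon, Krivelevich and Sudakov.
-/

set_option autoImplicit false

namespace Pool.Agent.KTM3

open Finset
open scoped Classical
open Pool.Agent.BAB67

/-- A linked dense set gives a complete minor. -/
theorem model_of_linked {W : Type} (H : SimpleGraph W) (X : Finset W) (t s : ℕ) (hs : 1 ≤ s)
    (hX : 0 < X.card) (hts : 12 * (t * s) ≤ X.card)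
    (hdeg : ∀ v ∈ X, X.card ≤ 3 * (X.filter (fun w => H.Adj v w)).card)
    (hpar : 2 * t * (6 * (3 / 4 : ℝ) ^ s) ^ s < 1) (hL : Linked H X (4 * (t * s))) :
    HasModel t H := by
  obtain ⟨A, hA1, hA2⟩ := exists_sets H X t s hs hX hts hdeg hpar t le_rfl
  obtain ⟨B, hB1, hB2⟩ := connect_all H X (4 * (t * s)) t s hL le_rfl A
    (fun i hi => ⟨(hA1 i hi).1, (hA1 i hi).2.1, (hA1 i hi).2.2.1⟩)
    (fun i hi i' hi' hne => (hA2 i hi i' hi' hne).1) t le_rfl
  refine ⟨fun i => (B i : Set W), ?_, ?_, ?_⟩
  · intro i
    exact (hB1 i i.2).2.2.2.1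
  · intro i j hij
    rw [disjoint_coe]
    exact hB2 i i.2 j j.2 (fun h => hij (Fin.ext h))
  · intro i j hij
    obtain ⟨-, a, ha, b, hb, hab⟩ := hA2 i i.2 j j.2 (fun h => hij (Fin.ext h))
    exact ⟨a, (hB1 i i.2).1 ha, b, (hB1 j j.2).1 hb, hab⟩

/-- Graphs of minimum degree at least half the number of vertices. -/
theorem dense_case {W : Type} [Fintype W] (H : SimpleGraph W) (t s : ℕ) (hs : 1 ≤ s)
    (hn : 32 * (t * s) < Fintype.card W)
    (hdeg : ∀ w, Fintype.card W ≤ 2 * (univ.filter (fun x => H.Adj w x)).card)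
    (hpar : 2 * t * (6 * (3 / 4 : ℝ) ^ s) ^ s < 1) : HasModel t H := by
  set m : ℕ := 4 * (t * s) with hm
  by_cases hL : Linked H univ m
  · apply model_of_linked H univ t s hs _ _ _ hpar hL
    · rw [card_univ]; omega
    · rw [card_univ]; omega
    · intro v _
      have := hdeg v
      rw [card_univ]
      omega
  · unfold Linked at hL
    push Not at hL
    obtain ⟨u, -, v, -, huv, F, hF, huF, hvF, h1, h2, h3⟩ := hL
    set n := Fintype.card W with hnn
    set N : W → Finset W := fun w => univ.filter (fun x => H.Adj w x) with hN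
    have hmemN : ∀ w x, x ∈ N w ↔ H.Adj w x := fun w x => by simp [hN]
    set X : Finset W := N u \ F with hX
    set Y : Finset W := N v \ F with hY
    have hXc : (N u).card ≤ X.card + F.card := card_le_card_sdiff_add_card
    have hYc : (N v).card ≤ Y.card + F.card := card_le_card_sdiff_add_card
    have hSc : (Yᶜ).card + Y.card = n := card_compl_add_card Y
    have hXS : X ⊆ Yᶜ := by
      intro x hx
      rw [mem_compl]
      intro hxY
      rw [hX, mem_sdiff, hmemN] at hx
      rw [hY, mem_sdiff, hmemN] at hxY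
      exact h2 x (mem_univ x) hx.2 hx.1 hxY.1.symm
    have hNS : ∀ x ∈ X, N x ⊆ Yᶜ := by
      intro x hx z hz
      rw [mem_compl]
      intro hzY
      rw [hX, mem_sdiff, hmemN] at hx
      rw [hY, mem_sdiff, hmemN] at hzY
      rw [hmemN] at hz
      exact h3 x (mem_univ x) z (mem_univ z) hx.2 hzY.2 hx.1 hz hzY.1.symm
    have hdu : n ≤ 2 * (N u).card := hdeg u
    have hdv : n ≤ 2 * (N v).card := hdeg v
    have hdX : ∀ x ∈ X, X.card ≤ (X.filter (fun w => H.Adj x w)).card + m := by
      intro x hx
      have e1 : N x ∩ X = X.filter (fun w => H.Adj x w) := by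
        ext w
        rw [mem_inter, hmemN, mem_filter, and_comm]
      have e2 := card_inter_add_card_union (N x) X
      have e3 : (N x ∪ X).card ≤ (Yᶜ).card := card_le_card (union_subset (hNS x hx) hXS)
      have e4 : n ≤ 2 * (N x).card := hdeg x
      rw [e1] at e2
      omega
    have hXbig : 3 * m < X.card := by omega
    apply model_of_linked H X t s hs (by omega) (by omega) _ hpar
    · intro a ha b hb hab F' hF' _ _
      right
      left
      have e1 := hdX a ha
      have e2 := hdX b hb
      have e3 := card_inter_add_card_union (X.filter (fun w => H.Adj a w))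
        (X.filter (fun w => H.Adj b w))
      have e4 : (X.filter (fun w => H.Adj a w) ∪ X.filter (fun w => H.Adj b w)).card ≤ X.card :=
        card_le_card (union_subset (filter_subset _ _) (filter_subset _ _))
      have e5 : F'.card < (X.filter (fun w => H.Adj a w) ∩ X.filter (fun w => H.Adj b w)).card := by
        omega
      obtain ⟨p, hp, hpF⟩ := exists_mem_notMem_of_card_lt_card e5
      rw [mem_inter, mem_filter, mem_filter] at hp
      exact ⟨p, hp.1.1, hpF, hp.1.2, hp.2.2.symm⟩
    · intro x hx
      have := hdX x hx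
      omega

/-- Graphs with at least `d |V|` edges have a complete minor of order `t` if `32 t s ≤ d`. -/
theorem kt (d t s : ℕ) (hs : 1 ≤ s) (ht : 1 ≤ t) (hd : 32 * (t * s) ≤ d)
    (hpar : 2 * t * (6 * (3 / 4 : ℝ) ^ s) ^ s < 1) (V : Type) [Finite V] [Nonempty V]
    (G : SimpleGraph V) (hE : d * Nat.card V ≤ G.edgeSet.ncard) : HasModel t G := by
  have hts : 0 < t * s := Nat.mul_pos (by omega) (by omega)
  obtain ⟨W, hW, ⟨w0⟩, H, hm, h1, h2⟩ := dense_minor d (by omega) _ V G rfl hE
  have := Fintype.ofFinite W
  have hcard : Nat.card W = Fintype.card W := Nat.card_eq_fintype_card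
  have hns : ∀ w, (H.neighborSet w).ncard = (univ.filter (fun x => H.Adj w x)).card := by
    intro w
    rw [← Set.ncard_coe_finset]
    congr 1
    ext x
    simp
  refine hm.hasModel (dense_case H t s hs ?_ ?_ hpar)
  · have e1 := h1 w0
    rw [hns] at e1
    have e2 : (univ.filter (fun x => H.Adj w0 x)).card < Fintype.card W := by
      rw [← card_univ]
      apply card_lt_card
      refine ⟨filter_subset _ _, fun h => ?_⟩
      have := (mem_filter.mp (h (mem_univ w0))).2
      exact H.loopless.irrefl w0 this
    omega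
  · intro w
    have := h2 w
    rw [hns, hcard] at this
    exact this

end Pool.Agent.KTM3
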