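import Pool.Agent.BAB67.Mader

/-!
# A dense minor in every graph of large average degree
-/

set_option autoImplicit false

namespace Pool.Agent.KTM3

open Pool.Agent.BAB67

/-- deleting an isolated vertex -/
lemma delete_isolated {V : Type} [Finite V] (G : SimpleGraph V) (y : V)
    (hy : ∀ w, ¬ G.Adj y w) :
    G.edgeSet.ncard ≤ (G.induce {w | w ≠ y}).edgeSet.ncard := by
  have h1 : G.edgeSet ⊆ Sym2.map Subtype.val '' (G.induce {w | w ≠ y}).edgeSet := by
    intro e he
    induction e with
    | h a b =>
    rw [SimpleGraph.mem_edgeSet] at he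
    have ha : a ≠ y := by
      rintro rfl
      exact hy b he
    have hb : b ≠ y := by
      rintro rfl
      exact hy a he.symm
    refine ⟨s(⟨a, ha⟩, ⟨b, hb⟩), ?_, rfl⟩
    rw [SimpleGraph.mem_edgeSet]
    exact he
  exact (Set.ncard_le_ncard h1 (Set.toFinite _)).trans (Set.ncard_image_le (Set.toFinite _))

theorem dense_minor (d : ℕ) (hd : 1 ≤ d) : ∀ (n : ℕ) (V : Type) [Finite V] [Nonempty V]
    (G : SimpleGraph V), Nat.card V = n → d * Nat.card V ≤ G.edgeSet.ncard →
    ∃ (W : Type) (_ : Finite W) (_ : Nonempty W) (H : SimpleGraph W), MinorOf H G ∧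
      (∀ w, d ≤ (H.neighborSet w).ncard) ∧ ∀ w, Nat.card W ≤ 2 * (H.neighborSet w).ncard := by
  intro n
  induction n with
  | zero =>
    intro V _ _ G hn _
    have : 0 < Nat.card V := Nat.card_pos
    omega
  | succ n ihn =>
    intro V _ _ G hn hE
    obtain ⟨s, hs⟩ := Nat.exists_eq_add_of_le hE
    have hpos : 0 < Nat.card V := Nat.card_pos
    by_cases hiso : ∃ y, ∀ w, ¬ G.Adj y w
    · obtain ⟨y, hy⟩ := hiso
      have hne : Nonempty {w | w ≠ y} := by
        by_contra hno
        rw [not_nonempty_iff] at hno
        have h0 : G.edgeSet = ∅ := by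
          rw [Set.eq_empty_iff_forall_notMem]
          intro e he
          induction e with
          | h a b =>
          rw [SimpleGraph.mem_edgeSet] at he
          have ha : a ≠ y := by
            rintro rfl
            exact hy b he
          exact hno.false ⟨a, ha⟩
        rw [h0, Set.ncard_empty] at hE
        have : 0 < d * Nat.card V := Nat.mul_pos (by omega) hpos
        omega
      have hc : Nat.card {w | w ≠ y} = n := by
        classical
        have := Fintype.ofFinite V
        have h1 : Nat.card {w : V // w ≠ y} = Nat.card V - 1 := by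
          rw [Nat.card_eq_fintype_card, Nat.card_eq_fintype_card, Fintype.card_subtype_compl,
            Fintype.card_subtype_eq]
        have h2 : Nat.card {w | w ≠ y} = Nat.card {w : V // w ≠ y} := rfl
        omega
      have h1 := delete_isolated G y hy
      obtain ⟨W, hW, hW', H, hm, h2, h3⟩ := ihn {w | w ≠ y} (G.induce {w | w ≠ y}) hc (by
        rw [hc]
        rw [hn] at hE
        have : d * n ≤ d * (n + 1) := Nat.mul_le_mul_left _ (by omega)
        omega)
      exact ⟨W, hW, hW', H, hm.trans (induce_minor G _), h2, h3⟩
    · push Not at hiso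
      by_cases hlow : ∃ u v, G.Adj u v ∧ {w | G.Adj u w ∧ G.Adj v w}.ncard < d + s
      · obtain ⟨u, v, huv, hco⟩ := hlow
        obtain ⟨V', hV', G', hm, hcard, hedge⟩ := contract_edge G huv (d + s) hco
        have h2 : 2 ≤ Nat.card V := by
          have : Nontrivial V := ⟨u, v, huv.ne⟩
          exact Finite.one_lt_card
        have h3 : Nonempty V' := by
          by_contra hne
          rw [not_nonempty_iff] at hne
          have : Nat.card V' = 0 := Nat.card_of_isEmpty
          omega
        obtain ⟨W, hW, hW', H, hm', h4, h5⟩ := ihn V' G' (by omega) (by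
          have e1 : d * Nat.card V = d * Nat.card V' + d := by rw [← hcard]; ring
          omega)
        exact ⟨W, hW, hW', H, hm'.trans hm, h4, h5⟩
      · push Not at hlow
        -- a vertex of small degree
        have hx : ∃ x, (G.neighborSet x).ncard ≤ 2 * (d + s) := by
          by_contra hno
          push Not at hno
          have h1 := degree_sum G (2 * (d + s) + 1) (fun v => hno v)
          rw [hs] at h1
          have h2 : (2 * (d + s) + 1) * Nat.card V = 2 * (d * Nat.card V) + 2 * s * Nat.card V +
              Nat.card V := by ring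
          have h3 : 2 * s ≤ 2 * s * Nat.card V := Nat.le_mul_of_pos_right _ hpos
          omega
        obtain ⟨x, hx⟩ := hx
        obtain ⟨y, hy⟩ := hiso x
        have hdeg : ∀ w : {w | G.Adj x w}, d + s ≤
            ((G.induce {w | G.Adj x w}).neighborSet w).ncard := by
          intro w
          refine le_trans (hlow x w w.2) ?_
          have h7 : Subtype.val '' ((G.induce {w | G.Adj x w}).neighborSet w) =
              {z | G.Adj x z ∧ G.Adj w z} := by
            ext z
            constructor
            · rintro ⟨a, ha, rfl⟩
              exact ⟨a.2, ha⟩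
            · rintro ⟨hz1, hz2⟩
              exact ⟨⟨z, hz1⟩, hz2, rfl⟩
          rw [← h7, Set.ncard_image_of_injective _ Subtype.val_injective]
        refine ⟨{w | G.Adj x w}, inferInstance, ⟨⟨y, hy⟩⟩, G.induce {w | G.Adj x w},
          induce_minor G _, fun w => ?_, fun w => ?_⟩
        · have := hdeg w
          omega
        · have h1 := hdeg w
          have h2 : Nat.card {w | G.Adj x w} = (G.neighborSet x).ncard := rfl
          omega

end Pool.Agent.KTM3
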