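import Pool.Agent.Ram1.Mean
import Pool.Agent.Ram1.Iter

/-!
# Halving the number of uncovered earlier neighbours
-/

set_option autoImplicit false

namespace Pool.Agent.KTM3

open Finset hiding dens
open Pool.Agent.Ram1

/-- One phase: from at most `d` to less than `d / 2` uncovered earlier neighbours. -/
theorem phase (P : ℕ → Finset ℕ) (hP : ∀ v, P v ⊆ range v) (n t : ℕ) (U : Finset ℕ)
    (d L l c : ℝ) (hL : 12 ≤ L) (hl : 0 ≤ l) (hcard : ∀ v, v < n → ((P v ∩ U).card : ℝ) ≤ d)
    (hc : ∀ v, ∀ u ∈ P v, ((P u ∩ P v).card : ℝ) ≤ c)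
    (h1 : L * Real.exp (2 * L) * c ≤ 3 * d) (h2 : L * Real.exp L ≤ 6 * d)
    (hn : (n : ℝ) ≤ Real.exp l) (ht : 64 * Real.exp (2 * L) * l + 97 * d / L ≤ t) :
    ∃ I : ℕ → Finset ℕ, (∀ i, i < t → I i ⊆ U ∧ ∀ v ∈ I i, ∀ u ∈ P v, u ∉ I i) ∧
      ∀ v, v < n → (((P v ∩ U).filter (fun u => ∀ i, i < t → u ∉ I i)).card : ℝ) < d / 2 := by
  have hL0 : 0 < L := by linarith
  set W : ℝ := Real.exp L with hW
  have hW1 : 1 < W := by rw [hW]; exact Real.one_lt_exp_iff.mpr hL0
  have hW0 : 0 < W := by linarith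
  have hWW : Real.exp (2 * L) = W ^ 2 := by
    rw [hW, ← Real.exp_nat_mul]
    norm_num
  rw [hWW] at h1 ht
  have hd0 : 0 < d := by
    have : 0 < L * W := by positivity
    linarith
  set P' : ℕ → Finset ℕ := fun v => P v ∩ U with hP'
  have hP'sub : ∀ v, P' v ⊆ range v := fun v => inter_subset_left.trans (hP v)
  set δ : ℝ := L / (12 * d) with hδ
  have hδ0 : 0 < δ := by positivity
  have hdδ : d * δ = L / 12 := by rw [hδ]; field_simp
  have hδW : δ * W ≤ 1 / 2 := by
    rw [hδ, div_mul_eq_mul_div, div_le_iff₀ (by positivity)]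
    linarith
  obtain ⟨p, S⟩ := Sys_exists P' hP'sub W δ hW1.le hδ0 hδW
  have hmean : ∀ v, v < n → δ / 2 ≤ Ex p n (fun I => if v ∈ I then 1 else 0) := by
    intro v hv
    apply S.mean d v n hv (hcard v hv)
    · by_cases hne : (P' v).Nonempty
      · obtain ⟨u, hu⟩ := hne
        have hc0 : 0 ≤ c := (Nat.cast_nonneg _).trans (hc v u (mem_inter.mp hu).1)
        have e2 : ∑ u ∈ P' v, ((P' u ∩ P' v).card : ℝ) ≤ ∑ _u ∈ P' v, c := by
          apply sum_le_sum
          intro u hu
          refine le_trans ?_ (hc v u (mem_inter.mp hu).1)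
          exact_mod_cast card_le_card (inter_subset_inter inter_subset_left inter_subset_left)
        rw [sum_const, nsmul_eq_mul] at e2
        have e3 : ((P' v).card : ℝ) * c ≤ d * c := mul_le_mul_of_nonneg_right (hcard v hv) hc0
        calc 4 * δ * W ^ 2 * ∑ u ∈ P' v, ((P' u ∩ P' v).card : ℝ)
            ≤ 4 * δ * W ^ 2 * (d * c) :=
              mul_le_mul_of_nonneg_left (e2.trans e3) (by positivity)
          _ = 4 * (d * δ) * (W ^ 2 * c) := by ring
          _ = L * W ^ 2 * c / 3 := by rw [hdδ]; ring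
          _ ≤ d := by linarith
      · rw [not_nonempty_iff_eq_empty] at hne
        rw [hne, sum_empty, mul_zero]
        exact hd0.le
    · rw [hW, Real.log_exp]
      have : 12 * δ * d = L := by rw [mul_assoc, mul_comm δ d, hdδ]; ring
      exact this.le
    · exact hW1
  set r : ℝ := d / 2 with hr
  have hr0 : 0 < r := by positivity
  set m : ℝ := r * δ / 2 with hm
  have hmL : m = L / 48 := by
    rw [hm, hr]
    calc d / 2 * δ / 2 = (d * δ) / 4 := by ring
      _ = L / 48 := by rw [hdδ]; ring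
  have hm0 : 0 < m := by rw [hmL]; positivity
  set sg : ℝ := d * δ * W + (d * δ * W) ^ 2 with hsg
  have hsgL : sg = L * W / 12 + (L * W / 12) ^ 2 := by rw [hsg, hdδ]; ring
  have hsg0 : 0 < sg := by rw [hsgL]; positivity
  have hsgm : 2 * sg / m ^ 2 ≤ 64 * W ^ 2 := by
    rw [div_le_iff₀ (by positivity), hmL, hsgL]
    have e1 : L * W ≤ L * W * (L / 12) := by
      have : 1 ≤ L / 12 := by linarith
      have h0 : 0 < L * W := by positivity
      nlinarith
    have e2 : L * W * (L / 12) ≤ L * W * (L / 12) * W := by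
      have h0 : 0 < L * W * (L / 12) := by positivity
      nlinarith
    have e3 : 2 * (L * W / 12 + (L * W / 12) ^ 2) ≤
        2 * ((L * W * (L / 12) * W) / 12 + (L * W / 12) ^ 2) := by linarith
    refine e3.trans (le_of_eq ?_ |>.trans (show 4 * (L * W / 12) ^ 2 ≤ _ from ?_))
    · ring
    · apply le_of_eq
      ring
  have h01 : m ^ 2 / (2 * sg) ≤ 1 := by
    rw [div_le_one (by positivity), hmL, hsgL]
    have e1 : L / 48 ≤ L * W / 12 := by
      have : L ≤ L * W := by nlinarith
      linarith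
    have e2 : (L / 48) ^ 2 ≤ (L * W / 12) ^ 2 := pow_le_pow_left₀ (by positivity) e1 2
    have e3 : 0 < L * W / 12 := by positivity
    nlinarith
  have hfin : n * Real.exp (m / sg * d) * (1 - m ^ 2 / (2 * sg)) ^ t < 1 := by
    set q : ℝ := m ^ 2 / (2 * sg) with hq
    have hq0 : 0 < q := by positivity
    have g1 : (1 - q) ^ t ≤ Real.exp (-(t * q)) := by
      have g2 : 1 - q ≤ Real.exp (-q) := by
        have := Real.add_one_le_exp (-q)
        linarith
      refine (pow_le_pow_left₀ (by linarith) g2 t).trans (le_of_eq ?_)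
      rw [← Real.exp_nat_mul]
      congr 1
      ring
    have g3 : n * Real.exp (m / sg * d) * (1 - q) ^ t ≤
        Real.exp l * Real.exp (m / sg * d) * Real.exp (-(t * q)) := by
      apply mul_le_mul (mul_le_mul_of_nonneg_right hn (Real.exp_pos _).le) g1
        (pow_nonneg (by linarith) t) (by positivity)
    refine lt_of_le_of_lt g3 ?_
    rw [← Real.exp_add, ← Real.exp_add, Real.exp_lt_one_iff]
    -- `t q > l + m d / sg`
    have g4 : l ≤ 64 * W ^ 2 * l * q := by
      have : 1 ≤ 64 * W ^ 2 * q := by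
        have e1 : 1 = 2 * sg / m ^ 2 * q := by rw [hq]; field_simp
        rw [e1]
        exact mul_le_mul_of_nonneg_right hsgm hq0.le
      nlinarith
    have g5 : m / sg * d = 96 * d / L * q := by
      rw [hq]
      have : m = L / 48 := hmL
      field_simp
      rw [this]
      ring
    have g6 : (64 * W ^ 2 * l + 97 * d / L) * q ≤ t * q := mul_le_mul_of_nonneg_right ht hq0.le
    have g7 : 0 < d / L * q := by positivity
    have g8 : (64 * W ^ 2 * l + 97 * d / L) * q = 64 * W ^ 2 * l * q + 96 * d / L * q +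
        d / L * q := by ring
    linarith
  obtain ⟨I, hI1, hI2⟩ := S.cover n t d r m sg hd0 hr0 hm hsg hmean hcard hfin h01
  refine ⟨fun i => I i ∩ U, ?_, ?_⟩
  · intro i hi
    refine ⟨inter_subset_right, ?_⟩
    intro v hv u hu huI
    rw [mem_inter] at hv huI
    exact hI1 i hi v hv.1 u (mem_inter.mpr ⟨hu, huI.2⟩) huI.1
  · intro v hv
    refine lt_of_eq_of_lt ?_ (hI2 v hv)
    congr 2
    apply filter_congr
    intro u hu
    have hu' : u ∈ U := (mem_inter.mp hu).2
    constructor
    · intro h i hi huI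
      exact h i hi (mem_inter.mpr ⟨huI, hu'⟩)
    · intro h i hi huI
      exact h i hi (mem_inter.mp huI).1

/-- Many phases. -/
theorem phases (P : ℕ → Finset ℕ) (hP : ∀ v, P v ⊆ range v) (n : ℕ) (D L l c : ℝ)
    (hL : 12 ≤ L) (hl : 0 ≤ l) (hcard : ∀ v, v < n → ((P v).card : ℝ) ≤ D)
    (hc : ∀ v, ∀ u ∈ P v, ((P u ∩ P v).card : ℝ) ≤ c) (hn : (n : ℝ) ≤ Real.exp l) (J : ℕ)
    (h1 : L * Real.exp (2 * L) * c ≤ 3 * (D / 2 ^ J))
    (h2 : L * Real.exp L ≤ 6 * (D / 2 ^ J)) :
    ∃ T : ℕ, (T : ℝ) ≤ J * (64 * Real.exp (2 * L) * l + 1) + 194 * D / L ∧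
      ∃ I : ℕ → Finset ℕ, (∀ i, i < T → ∀ v ∈ I i, ∀ u ∈ P v, u ∉ I i) ∧
      ∀ v, v < n → (((P v).filter (fun u => ∀ i, i < T → u ∉ I i)).card : ℝ) ≤ D / 2 ^ J := by
  have hL0 : 0 < L := by linarith
  have hD0 : 0 < D := by
    have e1 : 0 < L * Real.exp L := by positivity
    have e2 : 0 < D / 2 ^ J := by linarith
    have e3 : (0 : ℝ) < 2 ^ J := by positivity
    by_contra hcon
    push Not at hcon
    have : D / 2 ^ J ≤ 0 := div_nonpos_of_nonpos_of_nonneg hcon e3.le
    linarith
  have key : ∀ j : ℕ, j ≤ J → ∃ T : ℕ, (T : ℝ) ≤ j * (64 * Real.exp (2 * L) * l + 1) +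
      194 * D / L * (1 - 1 / 2 ^ j) ∧
      ∃ I : ℕ → Finset ℕ, (∀ i, i < T → ∀ v ∈ I i, ∀ u ∈ P v, u ∉ I i) ∧
      ∀ v, v < n → (((P v).filter (fun u => ∀ i, i < T → u ∉ I i)).card : ℝ) ≤ D / 2 ^ j := by
    intro j
    induction j with
    | zero =>
      intro _
      refine ⟨0, by simp, fun _ => ∅, fun i hi => absurd hi (Nat.not_lt_zero i), ?_⟩
      intro v hv
      have : (P v).filter (fun u => ∀ i, i < 0 → u ∉ (∅ : Finset ℕ)) = P v := by
        apply filter_true_of_mem
        intro u _ i hi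
        exact absurd hi (Nat.not_lt_zero i)
      rw [this]
      simpa using hcard v hv
    | succ j ih =>
      intro hj
      obtain ⟨T, hT, I, hI1, hI2⟩ := ih (by omega)
      set U : Finset ℕ := (range n).filter (fun u => ∀ i, i < T → u ∉ I i) with hU
      set d : ℝ := D / 2 ^ j with hd
      have hdJ : D / 2 ^ J ≤ d := by
        rw [hd]
        apply div_le_div_of_nonneg_left hD0.le (by positivity)
        exact pow_le_pow_right₀ (by norm_num) (by omega)
      have hPU : ∀ v, v < n → P v ∩ U = (P v).filter (fun u => ∀ i, i < T → u ∉ I i) := by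
        intro v hv
        ext u
        rw [mem_inter, hU, mem_filter, mem_filter]
        constructor
        · rintro ⟨e1, _, e2⟩
          exact ⟨e1, e2⟩
        · rintro ⟨e1, e2⟩
          have := mem_range.mp (hP v e1)
          exact ⟨e1, mem_range.mpr (this.trans hv), e2⟩
      set t : ℕ := ⌈64 * Real.exp (2 * L) * l + 97 * d / L⌉₊ with htdef
      have ht1 : 64 * Real.exp (2 * L) * l + 97 * d / L ≤ t := Nat.le_ceil _
      have hd0 : 0 < d := by rw [hd]; positivity
      have ht2 : (t : ℝ) < 64 * Real.exp (2 * L) * l + 97 * d / L + 1 :=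
        Nat.ceil_lt_add_one (by positivity)
      obtain ⟨I', hI'1, hI'2⟩ := phase P hP n t U d L l c hL hl
        (fun v hv => by rw [hPU v hv]; exact hI2 v hv) hc (by linarith) (by linarith) hn ht1
      refine ⟨T + t, ?_, fun i => if i < T then I i else I' (i - T), ?_, ?_⟩
      · push_cast
        have e1 : 194 * D / L * (1 - 1 / 2 ^ (j + 1)) =
            194 * D / L * (1 - 1 / 2 ^ j) + 97 * d / L := by
          rw [hd, pow_succ]
          field_simp
          ring
        rw [e1]
        linarith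
      · intro i hi v hv u hu
        by_cases hiT : i < T
        · simp only [hiT, if_true] at hv ⊢
          exact hI1 i hiT v hv u hu
        · simp only [hiT, if_false] at hv ⊢
          exact (hI'1 (i - T) (by omega)).2 v hv u hu
      · intro v hv
        have e1 : (P v).filter (fun u => ∀ i, i < T + t → u ∉ (if i < T then I i else I' (i - T))) ⊆
            (P v ∩ U).filter (fun u => ∀ i, i < t → u ∉ I' i) := by
          intro u hu
          rw [mem_filter] at hu
          rw [mem_filter, hPU v hv, mem_filter]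
          refine ⟨⟨hu.1, ?_⟩, ?_⟩
          · intro i hi
            have := hu.2 i (by omega)
            rwa [if_pos hi] at this
          · intro i hi
            have := hu.2 (T + i) (by omega)
            rwa [if_neg (by omega), Nat.add_sub_cancel_left] at this
        have e2 := hI'2 v hv
        have e3 : (((P v).filter (fun u => ∀ i, i < T + t →
            u ∉ (if i < T then I i else I' (i - T)))).card : ℝ) ≤
            (((P v ∩ U).filter (fun u => ∀ i, i < t → u ∉ I' i)).card : ℝ) := by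
          exact_mod_cast card_le_card e1
        have e4 : d / 2 = D / 2 ^ (j + 1) := by rw [hd, pow_succ]; field_simp
        rw [← e4]
        linarith
  obtain ⟨T, hT, h⟩ := key J le_rfl
  refine ⟨T, hT.trans ?_, h⟩
  have e1 : 194 * D / L * (1 - 1 / 2 ^ J) ≤ 194 * D / L * 1 := by
    apply mul_le_mul_of_nonneg_left _ (by positivity)
    have : (0 : ℝ) < 1 / 2 ^ J := by positivity
    linarith
  linarith

end Pool.Agent.KTM3
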